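import Pool.Agent.Lib.MP_fa98d2_nt.X.Fin

open Pool.Agent.Lib.MP_fa98d2_nt.D

namespace Pool.Agent.Results.MP_fa98d2_nt.DensitySatake

theorem result (n : ℕ) (hn : 2 ≤ n) (ε : ℝ) (hε : 0 < ε) :
    ∃ C : ℝ, ∀ p : ℕ, p.Prime → ∀ T U : ℝ, 1 ≤ U → U ≤ T → ∀ (ν : Fin n → ℂ)
      (ι : Type) [Fintype ι] (φ : ι → Matrix (Fin n) (Fin n) ℝ → ℂ) (μ : ι → Fin n → ℂ)
        (α : ι → ℕ → Fin n → ℂ),
        (∀ j, SphCusp (φ j) (μ j) (α j)) →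
        (∀ i j, i ≠ j →
          ¬ ∃ c : ℂ, ∀ g : Matrix (Fin n) (Fin n) ℝ, g.det ≠ 0 → φ j g = c * φ i g) →
        (∀ j l, ‖μ j l‖ ≤ T) → (∀ j l, ‖μ j l - ν l‖ ≤ U) →
        ∑ j, ∏ i : Fin n, (U * T ^ (n - 1 - i.val) / (p : ℝ) ^ (i.val + 1)) ^
            (2 * max (Real.logb p ‖α j p i‖) 0) ≤
          C * U ^ (n - 1) * T ^ ((n : ℝ) * (n - 1) / 2 + ε) :=
  SX.finX n hn ε hε

end Pool.Agent.Results.MP_fa98d2_nt.DensitySatake
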