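import Pool.Agent.Lib.MP_fa98d2_nt.W.All

open Pool.Agent.Lib.MP_fa98d2_nt.D

namespace Pool.Agent.Results.MP_fa98d2_nt.DensityWindow

theorem result (n : ℕ) (hn : 2 ≤ n) (ε : ℝ) (hε : 0 < ε) :
    ∃ C : ℝ, ∀ p : ℕ, p.Prime → ∀ T U : ℝ, 1 ≤ U → U ≤ T → ∀ (ν : Fin n → ℂ)
      (ι : Type) [Fintype ι] (φ : ι → Matrix (Fin n) (Fin n) ℝ → ℂ) (μ : ι → Fin n → ℂ)
        (α : ι → ℕ → Fin n → ℂ),
        (∀ j, SphCusp (φ j) (μ j) (α j)) →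
        (∀ i j, i ≠ j →
          ¬ ∃ c : ℂ, ∀ g : Matrix (Fin n) (Fin n) ℝ, g.det ≠ 0 → φ j g = c * φ i g) →
        (∀ j l, ‖μ j l‖ ≤ T) → (∀ j l, ‖μ j l - ν l‖ ≤ U) →
        ∑ j, ((T * U) ^ (n - 1) / (p : ℝ) ^ n) ^ (2 * thetaP (α j) p) ≤
          C * U ^ (n - 1) * T ^ ((n : ℝ) * (n - 1) / 2 + ε) := by
  obtain ⟨C, -, h⟩ := SW.finalC n hn ε hε
  exact ⟨C, fun p hp T U hU hUT ν ι _ φ μ α h1 h2 h3 h4 =>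
    (h T U hU hUT ν ι φ μ α h1 h2 h3 h4).2 p hp⟩

end Pool.Agent.Results.MP_fa98d2_nt.DensityWindow
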