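import Pool.Agent.Lib.MP_fa98d2_nt.Final2

open Pool.Agent.Lib.MP_fa98d2_nt Filter

namespace Pool.Agent.Results.MP_fa98d2_nt.ManyPrimes

theorem result (φ : Matrix (Fin 3) (Fin 3) ℝ → ℂ) (α : ℕ → Fin 3 → ℂ) (h : CuspForm3 φ α)
    (q : ℕ) (hq : q.Prime) (s : ℝ) (hs : s < max (1 / 2) (2 * theta α q)) :
    ∀ᶠ x : ℝ in atTop, x ^ s ≤ {p ∈ TemperedPrimes α | (p : ℝ) ≤ x}.ncard :=
  h.partE hq hs

end Pool.Agent.Results.MP_fa98d2_nt.ManyPrimes
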